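import Pool.Agent.H81.CG.Uniq

/-!
# The cell graph determines the dimension

The dimension plus one is the largest size of a set of hyperplanes on which all sign patterns occur.
-/

set_option autoImplicit false

namespace Pool.Agent.H81.CG

open Filter Topology
open Pool.Agent.Results.MP_d06cab_co.CellGraph
open Pool.Agent.Results.MP_d06cab_co.CellGraph.Arrangement

variable {d : ℕ} {A : Arrangement d}

/-- all sign patterns occur on `I` -/
def Sh (A : Arrangement d) (I : Finset (Fin A.n)) : Prop :=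
  ∀ J : Finset (Fin A.n), J ⊆ I → ∃ N ∈ A.T, N ∩ I = J

theorem card_le_of_Sh {I : Finset (Fin A.n)} (hI : Sh A I) : I.card ≤ d + 1 := by
  classical
  by_contra hcon
  push Not at hcon
  -- a linear relation between the forms
  have hdep : ¬ LinearIndependent ℝ (fun i : I => A.f i.1) := by
    intro h
    have := h.fintype_card_le_finrank
    rw [Fintype.card_coe, Subspace.dual_finrank_eq, Module.finrank_fin_fun] at this
    omega
  rw [Fintype.not_linearIndependent_iff] at hdep
  obtain ⟨g, hg, k, hk⟩ := hdep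
  obtain ⟨N, ⟨x, hx, rfl⟩, hN⟩ := hI (I.filter (fun i => ∃ h : i ∈ I, 0 < g ⟨i, h⟩))
    (Finset.filter_subset _ _)
  have hmem : ∀ i : I, (A.f i.1 x < 0 ↔ 0 < g i) := by
    intro i
    rw [← Arrangement.mem_neg]
    have : i.1 ∈ A.neg x ∩ I ↔ i.1 ∈ I.filter (fun i => ∃ h : i ∈ I, 0 < g ⟨i, h⟩) := by rw [hN]
    rw [Finset.mem_inter, Finset.mem_filter] at this
    constructor
    · intro h
      obtain ⟨-, h', h2⟩ := this.1 ⟨h, i.2⟩
      exact h2
    · intro h
      exact (this.2 ⟨i.2, i.2, h⟩).1
  have hterm : ∀ i : I, g i * A.f i.1 x ≤ 0 := by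
    intro i
    by_cases h : 0 < g i
    · exact mul_nonpos_of_nonneg_of_nonpos h.le ((hmem i).2 h).le
    · have h1 : ¬ (A.f i.1 x < 0) := fun h2 => h ((hmem i).1 h2)
      exact mul_nonpos_of_nonpos_of_nonneg (not_lt.1 h) (not_lt.1 h1)
  have hsum : ∑ i : I, g i * A.f i.1 x = 0 := by
    have := LinearMap.congr_fun hg x
    simpa using this
  have hzero := (Finset.sum_eq_zero_iff_of_nonpos (fun i _ => hterm i)).1 hsum k (Finset.mem_univ k)
  rcases mul_eq_zero.1 hzero with h | h
  · exact hk h
  · exact hx k.1 h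

theorem exists_Sh (A : Arrangement d) : ∃ I : Finset (Fin A.n), Sh A I ∧ I.card = d + 1 := by
  classical
  obtain ⟨κ, a, ha, hspan, hli⟩ := exists_linearIndependent' ℝ A.f
  have : Finite κ := Finite.of_injective a ha
  have : Fintype κ := Fintype.ofFinite κ
  -- the map to `κ → ℝ` is bijective
  let L : (Fin (d + 1) → ℝ) →ₗ[ℝ] (κ → ℝ) := LinearMap.pi (fun k => A.f (a k))
  have hinj : Function.Injective L := by
    rw [← LinearMap.ker_eq_bot, LinearMap.ker_eq_bot']
    intro x hx
    apply A.essential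
    intro i
    have hle : Submodule.span ℝ (Set.range (A.f ∘ a)) ≤
        LinearMap.ker (LinearMap.applyₗ x : ((Fin (d + 1) → ℝ) →ₗ[ℝ] ℝ) →ₗ[ℝ] ℝ) := by
      rw [Submodule.span_le]
      rintro _ ⟨k, rfl⟩
      exact congrFun hx k
    have hi : A.f i ∈ Submodule.span ℝ (Set.range (A.f ∘ a)) := by
      rw [hspan]
      exact Submodule.subset_span ⟨i, rfl⟩
    exact hle hi
  have hc1 : d + 1 ≤ Fintype.card κ := by
    have := LinearMap.finrank_le_finrank_of_injective hinj
    rwa [Module.finrank_fin_fun, Module.finrank_fintype_fun_eq_card] at this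
  have hc2 : Fintype.card κ ≤ d + 1 := by
    have := hli.fintype_card_le_finrank
    rwa [Subspace.dual_finrank_eq, Module.finrank_fin_fun] at this
  have hc : Fintype.card κ = d + 1 := le_antisymm hc2 hc1
  have hsurj : Function.Surjective L := by
    apply (LinearMap.injective_iff_surjective_of_finrank_eq_finrank _).1 hinj
    rw [Module.finrank_fin_fun, Module.finrank_fintype_fun_eq_card, hc]
  refine ⟨Finset.univ.image a, ?_, ?_⟩
  · intro J hJ
    obtain ⟨x, hx⟩ := hsurj (fun k => if a k ∈ J then -1 else 1)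
    obtain ⟨t, ht1, ht2⟩ := exists_perturb A.f A.f A.f_ne_zero x
    refine ⟨A.neg t, ⟨t, ht2, rfl⟩, ?_⟩
    have hk : ∀ k, a k ∈ A.neg t ↔ a k ∈ J := by
      intro k
      have h1 : A.f (a k) x = if a k ∈ J then -1 else 1 := congrFun hx k
      rw [Arrangement.mem_neg]
      by_cases h : a k ∈ J
      · rw [if_pos h] at h1
        have h2 := ht1 (a k) (by rw [h1]; norm_num)
        rw [h1, Left.sign_neg, sign_one, sign_eq_neg_one_iff] at h2
        exact ⟨fun _ => h, fun _ => h2⟩
      · rw [if_neg h] at h1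
        have h2 := ht1 (a k) (by rw [h1]; norm_num)
        rw [h1, sign_one, sign_eq_one_iff] at h2
        exact ⟨fun h3 => absurd h3 (not_lt.2 h2.le), fun h3 => absurd h3 h⟩
    ext i
    rw [Finset.mem_inter, Finset.mem_image]
    constructor
    · rintro ⟨h1, k, -, rfl⟩
      exact (hk k).1 h1
    · intro h1
      obtain ⟨k, -, rfl⟩ := Finset.mem_image.1 (hJ h1)
      exact ⟨(hk k).2 h1, k, Finset.mem_univ _, rfl⟩
  · rw [Finset.card_image_of_injective _ ha, Finset.card_univ, hc]

theorem dim_le {d' : ℕ} {B : Arrangement d'} (σ : Fin A.n ≃ Fin B.n) (E : Finset (Fin B.n))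
    (h : ∀ N : Finset (Fin A.n), N ∈ A.T ↔ symmDiff (N.map σ.toEmbedding) E ∈ B.T) : d' ≤ d := by
  classical
  obtain ⟨I, hI, hc⟩ := exists_Sh B
  have h1 : Sh A (I.map σ.symm.toEmbedding) := by
    intro J hJ
    obtain ⟨N, hN, hNI⟩ := hI (symmDiff (J.map σ.toEmbedding) (E ∩ I)) (by
      intro b hb
      rw [Finset.mem_symmDiff, Finset.mem_map_equiv, Finset.mem_inter] at hb
      rcases hb with ⟨hb, -⟩ | ⟨⟨-, hb⟩, -⟩
      · have := hJ hb
        rw [Finset.mem_map_equiv] at this
        simpa using this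
      · exact hb)
    refine ⟨(symmDiff N E).map σ.symm.toEmbedding, ?_, ?_⟩
    · rw [h, Finset.map_map]
      have : σ.symm.toEmbedding.trans σ.toEmbedding = Function.Embedding.refl _ := by
        ext b; simp
      rw [this, Finset.map_refl, symmDiff_assoc, symmDiff_self, symmDiff_bot]
      exact hN
    · ext i
      have h2 : σ i ∈ N ∩ I ↔ σ i ∈ symmDiff (J.map σ.toEmbedding) (E ∩ I) := by rw [hNI]
      rw [Finset.mem_inter, Finset.mem_symmDiff, Finset.mem_map_equiv, Finset.mem_inter,
        Equiv.symm_apply_apply] at h2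
      rw [Finset.mem_inter, Finset.mem_map_equiv, Finset.mem_map_equiv, Equiv.symm_symm,
        Finset.mem_symmDiff]
      have h3 : i ∈ J → σ i ∈ I := by
        intro hi
        have := hJ hi
        rwa [Finset.mem_map_equiv, Equiv.symm_symm] at this
      tauto
  have := card_le_of_Sh h1
  rw [Finset.card_map, hc] at this
  omega

theorem dim_eq {d' : ℕ} {B : Arrangement d'} (hd : 3 ≤ d) (hd' : 3 ≤ d')
    (φ : A.cellGraph ≃g B.cellGraph) : d = d' := by
  classical
  have hA : 3 ≤ A.n := by have := A.le_n; omega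
  have hB : 3 ≤ B.n := by have := B.le_n; omega
  have hcard := card_eq_of_iso (A.model hA) (B.model hB) φ
  rw [Fintype.card_fin, Fintype.card_fin] at hcard
  by_cases hn : 5 ≤ A.n
  · obtain ⟨σ, E, h, -⟩ := tope_equiv' (A.model hA) (B.model hB) φ (classes hd hn hA hB φ)
    obtain ⟨σ', E', h', -⟩ := tope_equiv' (B.model hB) (A.model hA) φ.symm
      (classes hd' (by omega) hB hA φ.symm)
    exact le_antisymm (dim_le σ' E' h') (dim_le σ E h)
  · have h1 := A.le_n
    have h2 := B.le_n
    omega

end Pool.Agent.H81.CG
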