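import Pool.Graph.R_seed8.Results.MP_d06cab_co.CellGraph

/-!
# Extending isomorphisms of cell graphs: the combinatorial part

`tope_equiv'` is the library's `tope_equiv` together with the information that the correspondence of
the sign vectors induces the given isomorphism.  `transfer` moves the class of a wall across
hyperplanes whose classes are already understood.
-/

set_option autoImplicit false

namespace Pool.Agent.H81.CG

open Pool.Agent.Results.MP_d06cab_co.CellGraph
open Finset

section TwoModels

variable {X Y : Type*} {G : SimpleGraph X} {H : SimpleGraph Y} {ι κ : Type*}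
  [Fintype ι] [DecidableEq ι] [Fintype κ] [DecidableEq κ]

/-- If all edges of each class of the first model have a common class in the second one, the two
sets of sign vectors agree up to a relabelling and a reorientation, which induces the given
isomorphism. -/
theorem tope_equiv' (m : Model G ι) (m' : Model H κ) (φ : G ≃g H)
    (hcls : ∀ i : ι, ∃ α : κ, ∀ P ∈ m.T, symmDiff P {i} ∈ m.T →
      m'.Cross (φ (m.c P)) (φ (m.c (symmDiff P {i}))) α) :
    ∃ σ : ι ≃ κ, ∃ E : Finset κ, (∀ N : Finset ι,
      (N ∈ m.T ↔ symmDiff (N.map σ.toEmbedding) E ∈ m'.T)) ∧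
      ∀ N ∈ m.T, m'.c (symmDiff (N.map σ.toEmbedding) E) = φ (m.c N) := by
  have hcard := card_eq_of_iso m m' φ
  choose s hs using hcls
  have hsurj : Function.Surjective s := by
    intro α
    obtain ⟨K, hK, hK'⟩ := m'.exists_crossing α
    have hadj := m'.adj_singleton hK hK'
    have hadj' : G.Adj (φ.symm (m'.c K)) (φ.symm (m'.c (symmDiff K {α}))) :=
      φ.symm.map_rel_iff.mpr hadj
    obtain ⟨i, P, hP, hP', h1, h2⟩ := m.exists_cross hadj'
    refine ⟨i, ?_⟩
    have h3 := hs i P hP hP'
    rw [h1, h2, RelIso.apply_symm_apply, RelIso.apply_symm_apply] at h3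
    exact h3.unique m' ⟨K, hK, hK', rfl, rfl⟩
  have hbij : Function.Bijective s := by
    rw [Fintype.bijective_iff_surjective_and_card]
    exact ⟨hsurj, hcard⟩
  set σ : ι ≃ κ := Equiv.ofBijective s hbij with hσ
  have hσs : ∀ i, σ i = s i := fun i => rfl
  obtain ⟨N0, hN0⟩ := m.nonempty
  obtain ⟨U0, hU0, hU0c⟩ := m'.surj (φ (m.c N0))
  have claim : ∀ k : ℕ, ∀ N ∈ m.T, (symmDiff N N0).card = k →
      ∃ U ∈ m'.T, m'.c U = φ (m.c N) ∧
        U = symmDiff (N.map σ.toEmbedding) (symmDiff (N0.map σ.toEmbedding) U0) := by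
    intro k
    induction k with
    | zero =>
      intro N hN h
      rw [card_eq_zero] at h
      have : N = N0 := symmDiff_eq_bot.mp h
      subst this
      refine ⟨U0, hU0, hU0c, ?_⟩
      rw [← symmDiff_assoc, symmDiff_self, bot_symmDiff]
    | succ k ih =>
      intro N hN h
      have hne : N ≠ N0 := by
        rintro rfl
        simp at h
      obtain ⟨i, hi, hi'⟩ := m.step N hN N0 hN0 hne
      have h1 := flip_left_mem hi
      obtain ⟨U1, hU1, hU1c, hU1e⟩ := ih _ hi' (by omega)
      have h2 := hs i _ hi' (by rwa [symmDiff_singleton_symmDiff])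
      rw [symmDiff_singleton_symmDiff] at h2
      obtain ⟨h3, h4⟩ := h2.rep m' hU1 hU1c
      refine ⟨symmDiff U1 {s i}, h3, h4, ?_⟩
      rw [hU1e, Pool.Agent.Results.MP_d06cab_co.CellGraph.map_symmDiff', map_singleton]
      have h7 : σ.toEmbedding i = s i := rfl
      rw [h7]
      exact sd_cancel _ _ _
  refine ⟨σ, symmDiff (N0.map σ.toEmbedding) U0, fun N => ?_, fun N hN => ?_⟩
  · constructor
    · intro hN
      obtain ⟨U, hU, -, hUe⟩ := claim _ N hN rfl
      rw [← hUe]
      exact hU
    · intro hV
      obtain ⟨M, hM, hMc⟩ := m.surj (φ.symm (m'.c _))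
      obtain ⟨U, hU, hUc, hUe⟩ := claim _ M hM rfl
      rw [hMc, RelIso.apply_symm_apply, m'.eq_iff _ hU _ hV] at hUc
      rcases hUc with h | h
      · rw [hUe] at h
        have h5 := symmDiff_left_injective _ h
        rw [Finset.map_inj] at h5
        rwa [← h5]
      · rw [hUe, ← compl_symmDiff_left] at h
        have h5 := symmDiff_left_injective _ h
        have h6 : M = Nᶜ := by
          ext a
          have := congrArg (fun S => σ a ∈ S) h5
          simpa [mem_map_equiv] using this
        rw [show N = Mᶜ by rw [h6, compl_compl]]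
        exact m.compl_mem _ hM
  · obtain ⟨U, -, hUc, hUe⟩ := claim _ N hN rfl
    rw [← hUe, hUc]

omit [Fintype ι] in
/-- The sum of the classes `s a`, `a ∈ D`, in the Boolean group of the subsets of `κ`. -/
def S (s : ι → κ) (D : Finset ι) : Finset κ :=
  univ.filter (fun β => Odd ((D.filter (fun a => s a = β)).card))

omit [Fintype ι] [DecidableEq ι] in
theorem S_empty (s : ι → κ) : S s (∅ : Finset ι) = ∅ := by
  ext β
  simp [S]

omit [Fintype ι] in
theorem S_erase (s : ι → κ) {D : Finset ι} {a : ι} (ha : a ∈ D) :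
    symmDiff {s a} (S s (D.erase a)) = S s D := by
  ext β
  simp only [S, mem_symmDiff, mem_singleton, mem_filter, mem_univ, true_and]
  by_cases hβ : β = s a
  · subst hβ
    have h1 : (D.filter (fun b => s b = s a)).card =
        ((D.erase a).filter (fun b => s b = s a)).card + 1 := by
      have : D.filter (fun b => s b = s a) = insert a ((D.erase a).filter (fun b => s b = s a)) := by
        ext b
        simp only [mem_filter, mem_insert, mem_erase]
        by_cases hb : b = a
        · subst hb; simp [ha]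
        · simp [hb]
      rw [this, card_insert_of_notMem (by simp)]
    rw [h1, Nat.odd_add_one]
    tauto
  · have h1 : D.filter (fun b => s b = β) = (D.erase a).filter (fun b => s b = β) := by
      ext b
      simp only [mem_filter, mem_erase]
      by_cases hb : b = a
      · subst hb
        constructor
        · rintro ⟨-, h⟩; exact absurd h.symm hβ
        · rintro ⟨⟨h, -⟩, -⟩; exact absurd rfl h
      · simp [hb]
    rw [h1]
    tauto

/-- Lifting a walk: the end of the lift is the start plus the sum of the classes that are crossed. -/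
theorem walk_lift (m : Model G ι) (m' : Model H κ) (φ : G ≃g H) (s : ι → κ) (K : Set ι)
    (hs : ∀ i ∈ K, ∀ P ∈ m.T, symmDiff P {i} ∈ m.T →
      m'.Cross (φ (m.c P)) (φ (m.c (symmDiff P {i}))) (s i)) :
    ∀ k : ℕ, ∀ N ∈ m.T, ∀ M ∈ m.T, (symmDiff N M).card = k → (∀ a ∈ symmDiff N M, a ∈ K) →
      ∀ U ∈ m'.T, m'.c U = φ (m.c N) →
        symmDiff U (S s (symmDiff N M)) ∈ m'.T ∧
          m'.c (symmDiff U (S s (symmDiff N M))) = φ (m.c M) := by
  intro k
  induction k with
  | zero =>
    intro N hN M hM h _ U hU hUc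
    rw [card_eq_zero] at h
    have : N = M := symmDiff_eq_bot.mp h
    subst this
    rw [h, S_empty, ← Finset.bot_eq_empty, symmDiff_bot]
    exact ⟨hU, hUc⟩
  | succ k ih =>
    intro N hN M hM h hK U hU hUc
    have hne : N ≠ M := by
      rintro rfl
      simp at h
    obtain ⟨i, hi, hi'⟩ := m.step N hN M hM hne
    have h1 := flip_left_mem hi
    have h2 := hs i (hK i hi) N hN hi'
    obtain ⟨h3, h4⟩ := h2.rep m' hU hUc
    have h5 : symmDiff (symmDiff N {i}) M = (symmDiff N M).erase i := by
      ext j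
      simp only [mem_symmDiff, mem_singleton, mem_erase] at hi ⊢
      by_cases hj : j = i
      · subst hj; tauto
      · tauto
    have h6 := ih (symmDiff N {i}) hi' M hM (by omega) (by
      intro a ha
      rw [h5] at ha
      exact hK a (mem_of_mem_erase ha)) (symmDiff U {s i}) h3 h4
    rw [h5, symmDiff_assoc, S_erase s hi] at h6
    exact h6

/-- The class of a wall is carried across hyperplanes whose classes are carried to single classes. -/
theorem transfer (m : Model G ι) (m' : Model H κ) (φ : G ≃g H) (s : ι → κ) (K : Set ι)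
    (hs : ∀ i ∈ K, ∀ P ∈ m.T, symmDiff P {i} ∈ m.T →
      m'.Cross (φ (m.c P)) (φ (m.c (symmDiff P {i}))) (s i)) {P Q : Finset ι} {i : ι}
    (hP : P ∈ m.T) (hP' : symmDiff P {i} ∈ m.T) (hQ : Q ∈ m.T) (hQ' : symmDiff Q {i} ∈ m.T)
    (hPQ : ∀ a ∈ symmDiff P Q, a ∈ K) {α : κ}
    (hα : m'.Cross (φ (m.c P)) (φ (m.c (symmDiff P {i}))) α) :
    m'.Cross (φ (m.c Q)) (φ (m.c (symmDiff Q {i}))) α := by
  obtain ⟨U, hU, hU', hUc, hUc'⟩ := hα
  have h1 := walk_lift m m' φ s K hs _ P hP Q hQ rfl hPQ U hU hUc
  have h2 := walk_lift m m' φ s K hs _ (symmDiff P {i}) hP' (symmDiff Q {i}) hQ' rfl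
    (by rw [flip_both]; exact hPQ) (symmDiff U {α}) hU' hUc'
  rw [flip_both] at h2
  have h3 : symmDiff (symmDiff U {α}) (S s (symmDiff P Q)) =
      symmDiff (symmDiff U (S s (symmDiff P Q))) {α} := by
    rw [symmDiff_assoc, symmDiff_comm ({α} : Finset κ) (S s (symmDiff P Q)), ← symmDiff_assoc]
  rw [h3] at h2
  exact ⟨_, h1.1, h2.1, h1.2, h2.2⟩

/-- If all classes but the `i`-th are carried to single classes, so is the `i`-th. -/
theorem last_class (m : Model G ι) (m' : Model H κ) (φ : G ≃g H) (i : ι)
    (hcls : ∀ k : ι, k ≠ i → ∃ α : κ, ∀ P ∈ m.T, symmDiff P {k} ∈ m.T →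
      m'.Cross (φ (m.c P)) (φ (m.c (symmDiff P {k}))) α) :
    ∃ α : κ, ∀ P ∈ m.T, symmDiff P {i} ∈ m.T →
      m'.Cross (φ (m.c P)) (φ (m.c (symmDiff P {i}))) α := by
  classical
  obtain ⟨K, hK, hK'⟩ := m.exists_crossing i
  obtain ⟨α, hα⟩ := m'.exists_cross (φ.map_rel_iff.mpr (m.adj_singleton hK hK'))
  let s : ι → κ := fun k => if h : k ≠ i then (hcls k h).choose else α
  have hs : ∀ k ∈ {k : ι | k ≠ i}, ∀ P ∈ m.T, symmDiff P {k} ∈ m.T →
      m'.Cross (φ (m.c P)) (φ (m.c (symmDiff P {k}))) (s k) := by
    intro k hk P hP hP'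
    have hk' : k ≠ i := hk
    have : s k = (hcls k hk').choose := by simp only [s, dif_pos hk']
    rw [this]
    exact (hcls k hk').choose_spec P hP hP'
  refine ⟨α, fun P hP hP' => ?_⟩
  by_cases hi : i ∈ symmDiff K P
  · have hi2 : i ∉ symmDiff K (symmDiff P {i}) := by
      simp only [mem_symmDiff, mem_singleton] at hi ⊢
      tauto
    have h1 := transfer m m' φ s _ hs hK hK' hP' (by rwa [symmDiff_singleton_symmDiff])
      (fun a ha => by
        intro h
        subst h
        exact hi2 ha) hα
    rw [symmDiff_singleton_symmDiff] at h1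
    exact h1.symm m'
  · exact transfer m m' φ s _ hs hK hK' hP hP' (fun a ha => by
      intro h
      subst h
      exact hi ha) hα

end TwoModels

end Pool.Agent.H81.CG
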