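import Pool.Agent.H81.CG.Uniq

/-!
# Four planes in projective three-space

The cell graph of four planes in general position is the complete bipartite graph `K_{4,4}`, and
some of its automorphisms do not extend to the faces.
-/

set_option autoImplicit false

namespace Pool.Agent.H81.CG

open Filter Topology
open Pool.Agent.Results.MP_d06cab_co.CellGraph
open Pool.Agent.Results.MP_d06cab_co.CellGraph.Arrangement

/-- Two vertices with the same neighbours can be interchanged. -/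
theorem swap_iso {X : Type*} (G : SimpleGraph X) (u v : X) (h : ∀ w, G.Adj u w ↔ G.Adj v w) :
    ∃ φ : G ≃g G, φ u = v ∧ φ v = u ∧ ∀ w, w ≠ u → w ≠ v → φ w = w := by
  classical
  have hs : ∀ a b, G.Adj a b → G.Adj (Equiv.swap u v a) (Equiv.swap u v b) := by
    have key : ∀ a b, G.Adj a b → G.Adj (Equiv.swap u v a) b := by
      intro a b hab
      by_cases hau : a = u
      · subst hau
        rw [Equiv.swap_apply_left]
        exact (h b).1 hab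
      · by_cases hav : a = v
        · subst hav
          rw [Equiv.swap_apply_right]
          exact (h b).2 hab
        · rwa [Equiv.swap_apply_of_ne_of_ne hau hav]
    intro a b hab
    exact (key b _ (key a b hab).symm).symm
  refine ⟨⟨Equiv.swap u v, fun {a b} => ⟨fun h' => ?_, hs a b⟩⟩, Equiv.swap_apply_left u v,
    Equiv.swap_apply_right u v, fun w h1 h2 => Equiv.swap_apply_of_ne_of_ne h1 h2⟩
  have := hs _ _ h'
  rwa [Equiv.swap_apply_self, Equiv.swap_apply_self] at this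

theorem nbr_aux : ∀ M : Finset (Fin 4),
    ((symmDiff (∅ : Finset (Fin 4)) M).card = 1 ∨ (symmDiff (∅ : Finset (Fin 4)) M).card + 1 = 4) ↔
      ((symmDiff ({2, 3} : Finset (Fin 4)) M).card = 1 ∨
        (symmDiff ({2, 3} : Finset (Fin 4)) M).card + 1 = 4) := by decide

/-- `a` is zero or equal to `t` -/
def ok (a t : SignType) : Bool := decide (a = 0) || decide (a = t)

theorem sign_aux : ∀ a b c e : SignType,
    ((ok a 1 && ok b 1 && ok c (-1) && ok e (-1)) ||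
      (ok a (-1) && ok b (-1) && ok c 1 && ok e 1)) = true →
    ((ok a 1 && ok b (-1) && ok c 1 && ok e 1) ||
      (ok a (-1) && ok b 1 && ok c (-1) && ok e (-1))) = true →
    ((ok a 1 && ok b 1 && ok c 1 && ok e (-1)) ||
      (ok a (-1) && ok b (-1) && ok c (-1) && ok e 1)) = true →
    ((ok a 1 && ok b (-1) && ok c 1 && ok e (-1)) ||
      (ok a (-1) && ok b 1 && ok c (-1) && ok e 1)) = true →
    ((ok a 1 && ok b 1 && ok c 1 && ok e 1) ||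
      (ok a (-1) && ok b (-1) && ok c (-1) && ok e (-1))) = true := by
  decide

theorem v1 : ∀ i : Fin 4, (![1, 1, 1, 1] : Fin 4 → ℝ) i < 0 ↔ i ∈ (∅ : Finset (Fin 4)) := by
  intro i; fin_cases i <;> simp
theorem v2 : ∀ i : Fin 4, (![1, 1, -1, -1] : Fin 4 → ℝ) i < 0 ↔ i ∈ ({2, 3} : Finset (Fin 4)) := by
  intro i; fin_cases i <;> simp
theorem v3 : ∀ i : Fin 4, (![1, -1, 1, 1] : Fin 4 → ℝ) i < 0 ↔ i ∈ ({1} : Finset (Fin 4)) := by
  intro i; fin_cases i <;> simp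
theorem v4 : ∀ i : Fin 4, (![1, 1, 1, -1] : Fin 4 → ℝ) i < 0 ↔ i ∈ ({3} : Finset (Fin 4)) := by
  intro i; fin_cases i <;> simp
theorem v5 : ∀ i : Fin 4, (![1, -1, 1, -1] : Fin 4 → ℝ) i < 0 ↔ i ∈ ({1, 3} : Finset (Fin 4)) := by
  intro i; fin_cases i <;> simp
theorem w1 : ∀ i : Fin 4, (![1, 1, 1, 1] : Fin 4 → ℝ) i ≠ 0 := by intro i; fin_cases i <;> simp
theorem w2 : ∀ i : Fin 4, (![1, 1, -1, -1] : Fin 4 → ℝ) i ≠ 0 := by intro i; fin_cases i <;> simp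
theorem w3 : ∀ i : Fin 4, (![1, -1, 1, 1] : Fin 4 → ℝ) i ≠ 0 := by intro i; fin_cases i <;> simp
theorem w4 : ∀ i : Fin 4, (![1, 1, 1, -1] : Fin 4 → ℝ) i ≠ 0 := by intro i; fin_cases i <;> simp
theorem w5 : ∀ i : Fin 4, (![1, -1, 1, -1] : Fin 4 → ℝ) i ≠ 0 := by intro i; fin_cases i <;> simp

theorem sne1 : ({1} : Finset (Fin 4)) ≠ ∅ ∧ ({1} : Finset (Fin 4)) ≠ ∅ᶜ ∧
    ({1} : Finset (Fin 4)) ≠ {2, 3} ∧ ({1} : Finset (Fin 4)) ≠ {2, 3}ᶜ := by decide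
theorem sne2 : ({3} : Finset (Fin 4)) ≠ ∅ ∧ ({3} : Finset (Fin 4)) ≠ ∅ᶜ ∧
    ({3} : Finset (Fin 4)) ≠ {2, 3} ∧ ({3} : Finset (Fin 4)) ≠ {2, 3}ᶜ := by decide
theorem sne3 : ({1, 3} : Finset (Fin 4)) ≠ ∅ ∧ ({1, 3} : Finset (Fin 4)) ≠ ∅ᶜ ∧
    ({1, 3} : Finset (Fin 4)) ≠ {2, 3} ∧ ({1, 3} : Finset (Fin 4)) ≠ {2, 3}ᶜ := by decide

/-- `Ab` in terms of `ok`, for four hyperplanes -/
theorem Ab_iff_ok {a : Fin 4 → (Fin (3 + 1) → ℝ)} {h1 h2 h3} (y t : Fin (3 + 1) → ℝ)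
    (v : Fin 4 → ℝ) (ht : ∀ i : Fin 4, (⟨4, a, h1, h2, h3⟩ : Arrangement 3).f i t = v i)
    (s : Fin 4 → SignType)
    (hs : ∀ i : Fin 4, s i = SignType.sign ((⟨4, a, h1, h2, h3⟩ : Arrangement 3).f i y)) :
    Ab ⟨4, a, h1, h2, h3⟩ y t ↔
      ((ok (s 0) (SignType.sign (v 0)) && ok (s 1) (SignType.sign (v 1)) &&
        ok (s 2) (SignType.sign (v 2)) && ok (s 3) (SignType.sign (v 3))) ||
      (ok (s 0) (-SignType.sign (v 0)) && ok (s 1) (-SignType.sign (v 1)) &&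
        ok (s 2) (-SignType.sign (v 2)) && ok (s 3) (-SignType.sign (v 3)))) = true := by
  have key : ∀ (p q : SignType), (p ≠ 0 → p = q) ↔ ok p q = true := by decide
  have e1 : sle ((⟨4, a, h1, h2, h3⟩ : Arrangement 3).signs y)
      ((⟨4, a, h1, h2, h3⟩ : Arrangement 3).signs t) ↔
      ∀ i : Fin 4, ok (s i) (SignType.sign (v i)) = true := by
    refine forall_congr' fun i => ?_
    rw [signs_apply, signs_apply, ← hs, ht, key]
  have e2 : sle ((⟨4, a, h1, h2, h3⟩ : Arrangement 3).signs y)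
      (-(⟨4, a, h1, h2, h3⟩ : Arrangement 3).signs t) ↔
      ∀ i : Fin 4, ok (s i) (-SignType.sign (v i)) = true := by
    refine forall_congr' fun i => ?_
    rw [Pi.neg_apply, signs_apply, signs_apply, ← hs, ht, key]
  unfold Ab
  rw [e1, e2, Bool.or_eq_true]
  simp only [Bool.and_eq_true, Fin.forall_fin_succ, Fin.isValue]
  constructor
  · rintro (⟨b1, b2, b3, b4, -⟩ | ⟨b1, b2, b3, b4, -⟩)
    · left; exact ⟨⟨⟨b1, b2⟩, b3⟩, b4⟩
    · right; exact ⟨⟨⟨b1, b2⟩, b3⟩, b4⟩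
  · rintro (⟨⟨⟨b1, b2⟩, b3⟩, b4⟩ | ⟨⟨⟨b1, b2⟩, b3⟩, b4⟩)
    · left; exact ⟨b1, b2, b3, b4, fun i => i.elim0⟩
    · right; exact ⟨b1, b2, b3, b4, fun i => i.elim0⟩

theorem four_aux (A : Arrangement 3) (hn : A.n = 4) :
    ∃ φ : A.cellGraph ≃g A.cellGraph, ¬ ∃ ψ : A.Face ≃ A.Face,
      (∀ F G : A.Face, A.InClosure F G ↔ A.InClosure (ψ F) (ψ G)) ∧
        ∀ C : A.Cell, ψ C.1 = (φ C).1 := by
  obtain ⟨n, a, h1, h2, h3⟩ := A
  change n = 4 at hn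
  subst hn
  set A : Arrangement 3 := ⟨4, a, h1, h2, h3⟩ with hA
  let L : (Fin 4 → ℝ) →ₗ[ℝ] (Fin 4 → ℝ) := LinearMap.pi A.f
  have hinj : Function.Injective L := by
    rw [← LinearMap.ker_eq_bot, LinearMap.ker_eq_bot']
    intro x hx
    apply A.essential
    intro i
    exact congrFun hx i
  have hsurj : ∀ v : Fin 4 → ℝ, ∃ x, ∀ i : Fin 4, A.f i x = v i := by
    intro v
    obtain ⟨x, hx⟩ := LinearMap.injective_iff_surjective.1 hinj v
    exact ⟨x, fun i => congrFun hx i⟩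
  obtain ⟨p1, hp1⟩ := hsurj ![1, 1, 1, 1]
  obtain ⟨p2, hp2⟩ := hsurj ![1, 1, -1, -1]
  obtain ⟨q2, hq2⟩ := hsurj ![1, -1, 1, 1]
  obtain ⟨q3, hq3⟩ := hsurj ![1, 1, 1, -1]
  obtain ⟨q4, hq4⟩ := hsurj ![1, -1, 1, -1]
  obtain ⟨r, hr⟩ := hsurj ![1, 0, 1, 0]
  have hgen : ∀ (x : Fin 4 → ℝ) (v : Fin 4 → ℝ), (∀ i : Fin 4, A.f i x = v i) →
      (∀ i, v i ≠ 0) → A.Gen x := fun x v hx hv i => by rw [hx i]; exact hv i
  have g1 : A.Gen p1 := hgen _ _ hp1 w1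
  have g2 : A.Gen p2 := hgen _ _ hp2 w2
  have k2 : A.Gen q2 := hgen _ _ hq2 w3
  have k3 : A.Gen q3 := hgen _ _ hq3 w4
  have k4 : A.Gen q4 := hgen _ _ hq4 w5
  have hneg : ∀ (x : Fin 4 → ℝ) (v : Fin 4 → ℝ) (M : Finset (Fin 4)), (∀ i : Fin 4, A.f i x = v i) →
      (∀ i, v i < 0 ↔ i ∈ M) → A.neg x = M := by
    intro x v M hx hv
    ext i
    rw [Arrangement.mem_neg, hx i]
    exact hv i
  have n1 := hneg _ _ _ hp1 v1
  have n2 := hneg _ _ _ hp2 v2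
  have n3 := hneg _ _ _ hq2 v3
  have n4 := hneg _ _ _ hq3 v4
  have n5 := hneg _ _ _ hq4 v5
  have hA3 : 3 ≤ A.n := by show 3 ≤ 4; norm_num
  obtain ⟨φ, hφ1, hφ2, hφ3⟩ := swap_iso A.cellGraph (cellOf p1 g1) (cellOf p2 g2) (by
    intro D
    obtain ⟨x, hx, rfl⟩ := exists_cellOf D
    rw [← model_c hA3 g1, ← model_c hA3 g2, ← model_c hA3 hx,
      (A.model hA3).adj_iff _ ⟨p1, g1, rfl⟩ _ ⟨x, hx, rfl⟩,
      (A.model hA3).adj_iff _ ⟨p2, g2, rfl⟩ _ ⟨x, hx, rfl⟩, Fintype.card_fin, n1, n2]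
    exact nbr_aux (A.neg x))
  refine ⟨φ, ?_⟩
  rintro ⟨ψ, hψ1, hψ2⟩
  have hfix : ∀ (x : Fin 4 → ℝ) (hx : A.Gen x) (M : Finset (Fin 4)), A.neg x = M →
      (M ≠ ∅ ∧ M ≠ ∅ᶜ ∧ M ≠ {2, 3} ∧ M ≠ {2, 3}ᶜ) → φ (cellOf x hx) = cellOf x hx := by
    intro x hx M hM hne
    apply hφ3
    · intro h
      rw [cellOf_eq_iff, n1, hM] at h
      rcases h with h | h
      · exact hne.1 h
      · exact hne.2.1 h
    · intro h
      rw [cellOf_eq_iff, n2, hM] at h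
      rcases h with h | h
      · exact hne.2.2.1 h
      · exact hne.2.2.2 h
  have f2 := hfix q2 k2 _ n3 sne1
  have f3 := hfix q3 k3 _ n4 sne2
  have f4 := hfix q4 k4 _ n5 sne3
  have hr0 : r ≠ 0 := by
    rintro rfl
    have := hr 0
    rw [map_zero] at this
    norm_num at this
  let F : A.Face := ⟨A.face r, r, hr0, rfl⟩
  obtain ⟨y, hy, hG⟩ := (ψ F).2
  have hInc : ∀ (F G : A.Face) x y, x ≠ 0 → y ≠ 0 → F.1 = A.face x → G.1 = A.face y →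
      (A.InClosure F G ↔ Ab A x y) := by
    intro F G x y hx hy hF hG
    unfold InClosure Ab
    rw [hF, hG, A.face_subset_closure_iff hx hy]
  have tr : ∀ (x z : Fin 4 → ℝ) (hx : A.Gen x) (hz : A.Gen z), φ (cellOf x hx) = cellOf z hz →
      (Ab A r x ↔ Ab A y z) := by
    intro x z hx hz h
    rw [← hInc F (cellOf x hx).1 r x hr0 hx.ne_zero rfl rfl, hψ1, hψ2, h,
      hInc (ψ F) (cellOf z hz).1 y z hy hz.ne_zero hG rfl]
  have t1 := tr p1 p2 g1 g2 hφ1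
  have t2 := tr p2 p1 g2 g1 hφ2
  have t3 := tr q2 q2 k2 k2 f2
  have t4 := tr q3 q3 k3 k3 f3
  have t5 := tr q4 q4 k4 k4 f4
  have sr : ∀ i : Fin 4, (![1, 0, 1, 0] : Fin 4 → SignType) i = SignType.sign (A.f i r) := by
    intro i
    rw [hr i]
    fin_cases i <;> simp
  rw [Ab_iff_ok r p1 _ hp1 _ sr, Ab_iff_ok y p2 _ hp2 _ (fun i => rfl)] at t1
  rw [Ab_iff_ok r p2 _ hp2 _ sr, Ab_iff_ok y p1 _ hp1 _ (fun i => rfl)] at t2
  rw [Ab_iff_ok r q2 _ hq2 _ sr, Ab_iff_ok y q2 _ hq2 _ (fun i => rfl)] at t3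
  rw [Ab_iff_ok r q3 _ hq3 _ sr, Ab_iff_ok y q3 _ hq3 _ (fun i => rfl)] at t4
  rw [Ab_iff_ok r q4 _ hq4 _ sr, Ab_iff_ok y q4 _ hq4 _ (fun i => rfl)] at t5
  simp only [Matrix.cons_val, sign_one, Left.sign_neg, neg_neg] at t1 t2 t3 t4 t5
  have u1 := t1.1 (by decide)
  have u3 := t3.1 (by decide)
  have u4 := t4.1 (by decide)
  have u5 := t5.1 (by decide)
  have u2 := t2.2 (sign_aux _ _ _ _ u1 u3 u4 u5)
  exact absurd u2 (by decide)

end Pool.Agent.H81.CG
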