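import Pool.Agent.H81.CG.Ext

/-!
# Extending isomorphisms of cell graphs: the geometric part

With at least five hyperplanes in dimension at least three at most one hyperplane contains two
different flats of codimension two that lie in at least half of the hyperplanes (`bad_unique`).
Hence every isomorphism of the cell graphs carries the walls in one hyperplane to the walls in one
hyperplane (`classes`) and extends to the faces (`extension`).
-/

set_option autoImplicit false

namespace Pool.Agent.H81.CG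

open Filter Topology
open Pool.Agent.Results.MP_d06cab_co.CellGraph
open Pool.Agent.Results.MP_d06cab_co.CellGraph.Arrangement

variable {d : ℕ} {A B : Arrangement d}

/-- the hyperplanes through the intersection of the `i`-th and the `j`-th -/
noncomputable def Fl (A : Arrangement d) (i j : Fin A.n) : Finset (Fin A.n) := insert i (A.cls i j)

theorem card_Fl (i j : Fin A.n) : (Fl A i j).card = (A.cls i j).card + 1 := by
  unfold Fl
  rw [Finset.card_insert_of_notMem]
  intro h
  exact (mem_cls.1 h).1 rfl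

theorem mem_Fl {i j l : Fin A.n} :
    l ∈ Fl A i j ↔ ∃ c c' : ℝ, ∀ x, A.f l x = c * A.f i x + c' * A.f j x := by
  unfold Fl
  rw [Finset.mem_insert, mem_cls]
  constructor
  · rintro (rfl | ⟨-, c, c', h⟩)
    · exact ⟨1, 0, fun x => by ring⟩
    · exact ⟨c, c', fun x => by rw [h]; simp⟩
  · rintro ⟨c, c', h⟩
    by_cases hl : l = i
    · exact Or.inl hl
    · right
      refine ⟨hl, c, c', LinearMap.ext fun x => ?_⟩
      rw [h x]; simp

theorem left_mem_Fl (i j : Fin A.n) : i ∈ Fl A i j := Finset.mem_insert_self _ _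

theorem right_mem_Fl (i j : Fin A.n) : j ∈ Fl A i j := mem_Fl.2 ⟨0, 1, fun x => by ring⟩

theorem par {a b : Fin A.n} {c c' : ℝ} (h : ∀ x, c * A.f a x = c' * A.f b x) (hc : c ≠ 0) :
    a = b := by
  apply A.f_parallel (c := c' / c)
  refine LinearMap.ext fun x => ?_
  have := h x
  simp only [LinearMap.smul_apply, smul_eq_mul]
  field_simp
  linarith

/-- two different hyperplanes of a pencil determine it -/
theorem Fl_eq {i j a b : Fin A.n} (hab : a ≠ b) (ha : a ∈ Fl A i j) (hb : b ∈ Fl A i j) :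
    Fl A a b = Fl A i j := by
  obtain ⟨p, q, h1⟩ := mem_Fl.1 ha
  obtain ⟨r, s, h2⟩ := mem_Fl.1 hb
  have hD : p * s - q * r ≠ 0 := by
    intro h0
    have e1 : ∀ x, s * A.f a x = q * A.f b x := by
      intro x; rw [h1, h2]; linear_combination (A.f i x) * h0
    have e2 : ∀ x, r * A.f a x = p * A.f b x := by
      intro x; rw [h1, h2]; linear_combination -(A.f j x) * h0
    by_cases hs : s = 0
    · by_cases hr : r = 0
      · apply A.f_ne_zero b
        exact LinearMap.ext fun x => by rw [h2, hs, hr]; simp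
      · exact hab (par e2 hr)
    · exact hab (par e1 hs)
  ext l
  rw [mem_Fl, mem_Fl]
  constructor
  · rintro ⟨c, c', h⟩
    exact ⟨c * p + c' * r, c * q + c' * s, fun x => by rw [h, h1, h2]; ring⟩
  · rintro ⟨c, c', h⟩
    refine ⟨(c * s - c' * r) / (p * s - q * r), (c' * p - c * q) / (p * s - q * r), fun x => ?_⟩
    rw [h, h1 x, h2 x, div_mul_eq_mul_div, div_mul_eq_mul_div, ← add_div, eq_div_iff hD]
    ring

/-- The `i`-th hyperplane contains two different flats of codimension two, each of them in at least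
half of the hyperplanes. -/
def Bad (A : Arrangement d) (i : Fin A.n) : Prop :=
  ∃ j j' : Fin A.n, j ≠ i ∧ j' ≠ i ∧ A.Big i j ∧ A.Big i j' ∧ j' ∉ A.cls i j

/-- `l` is a combination of three given hyperplanes -/
def InW (A : Arrangement d) (i j j' l : Fin A.n) : Prop :=
  ∃ c1 c2 c3 : ℝ, ∀ x, A.f l x = c1 * A.f i x + c2 * A.f j x + c3 * A.f j' x

theorem bad_unique (hd : 3 ≤ d) (hn : 5 ≤ A.n) {i k : Fin A.n} (hi : Bad A i) (hk : Bad A k) :
    k = i := by
  classical
  obtain ⟨j, j', hj, hj', hB, hB', hnot⟩ := hi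
  have hnot' : j' ∉ Fl A i j := by
    unfold Fl
    rw [Finset.mem_insert]
    tauto
  have hint : ∀ a, a ∈ Fl A i j → a ∈ Fl A i j' → a = i := by
    intro a h1 h2
    by_contra hne
    apply hnot'
    rw [← Fl_eq (Ne.symm hne) (left_mem_Fl i j) h1, Fl_eq (Ne.symm hne) (left_mem_Fl i j') h2]
    exact right_mem_Fl i j'
  obtain ⟨h, hh⟩ : ∃ h, ¬ InW A i j j' h := by
    by_contra hcon
    push Not at hcon
    let Φ : (Fin (d + 1) → ℝ) →ₗ[ℝ] (Fin 3 → ℝ) := LinearMap.pi ![A.f i, A.f j, A.f j']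
    have hinj : Function.Injective Φ := by
      rw [← LinearMap.ker_eq_bot, LinearMap.ker_eq_bot']
      intro x hx
      have e0 : A.f i x = 0 := congrFun hx 0
      have e1 : A.f j x = 0 := congrFun hx 1
      have e2 : A.f j' x = 0 := congrFun hx 2
      apply A.essential
      intro l
      obtain ⟨c1, c2, c3, hc⟩ := hcon l
      rw [hc, e0, e1, e2]; ring
    have := LinearMap.finrank_le_finrank_of_injective hinj
    rw [Module.finrank_fin_fun, Module.finrank_fin_fun] at this
    omega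
  have hW1 : ∀ a, a ∈ Fl A i j → InW A i j j' a := by
    intro a ha
    obtain ⟨c, c', hc⟩ := mem_Fl.1 ha
    exact ⟨c, c', 0, fun x => by rw [hc]; ring⟩
  have hW2 : ∀ a, a ∈ Fl A i j' → InW A i j j' a := by
    intro a ha
    obtain ⟨c, c', hc⟩ := mem_Fl.1 ha
    exact ⟨c, 0, c', fun x => by rw [hc]; ring⟩
  have hWc : ∀ a b l, InW A i j j' a → InW A i j j' b → l ∈ Fl A a b → InW A i j j' l := by
    rintro a b l ⟨a1, a2, a3, ha⟩ ⟨b1, b2, b3, hb⟩ hl
    obtain ⟨c, c', hc⟩ := mem_Fl.1 hl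
    exact ⟨c * a1 + c' * b1, c * a2 + c' * b2, c * a3 + c' * b3,
      fun x => by rw [hc, ha, hb]; ring⟩
  have hcard := Finset.card_union_add_card_inter (Fl A i j) (Fl A i j')
  have hcap : (Fl A i j ∩ Fl A i j').card ≤ 1 := by
    rw [Finset.card_le_one]
    intro a ha b hb
    rw [Finset.mem_inter] at ha hb
    rw [hint a ha.1 ha.2, hint b hb.1 hb.2]
  have hb1 : A.n ≤ 2 * (Fl A i j).card := by rw [card_Fl]; exact hB
  have hb2 : A.n ≤ 2 * (Fl A i j').card := by rw [card_Fl]; exact hB'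
  have hhU : h ∉ Fl A i j ∪ Fl A i j' := by
    rw [Finset.mem_union]
    rintro (h1 | h1)
    · exact hh (hW1 h h1)
    · exact hh (hW2 h h1)
  have hall : ∀ l, l ≠ h → l ∈ Fl A i j ∪ Fl A i j' := by
    intro l hl
    by_contra hcon
    have h1 := Finset.card_le_univ (insert l (insert h (Fl A i j ∪ Fl A i j')))
    rw [Finset.card_insert_of_notMem (by rw [Finset.mem_insert]; tauto),
      Finset.card_insert_of_notMem hhU, Fintype.card_fin] at h1
    omega
  have hWall : ∀ l, l ≠ h → InW A i j j' l := by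
    intro l hl
    rcases Finset.mem_union.1 (hall l hl) with h1 | h1
    · exact hW1 l h1
    · exact hW2 l h1
  have hbig : ∀ k1, A.Big k k1 → Fl A k k1 = Fl A i j ∨ Fl A k k1 = Fl A i j' := by
    intro k1 hBk
    have h3 : 2 < (Fl A k k1).card := by
      rw [card_Fl]
      unfold Arrangement.Big at hBk
      omega
    have key : ∀ u v, u ∈ Fl A k k1 → v ∈ Fl A k k1 → u ≠ v → Fl A u v = Fl A k k1 :=
      fun u v hu hv huv => Fl_eq huv hu hv
    have hhQ : h ∉ Fl A k k1 := by
      intro hQ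
      have h4 : 1 < ((Fl A k k1).erase h).card := by rw [Finset.card_erase_of_mem hQ]; omega
      obtain ⟨u, hu, v, hv, huv⟩ := Finset.one_lt_card.1 h4
      rw [Finset.mem_erase] at hu hv
      apply hh
      exact hWc u v h (hWall u hu.1) (hWall v hv.1) (by rw [key u v hu.2 hv.2 huv]; exact hQ)
    obtain ⟨a, ha, b, hb, c, hc, hab, hac, hbc⟩ := Finset.two_lt_card.1 h3
    have fa := Finset.mem_union.1 (hall a (fun e => hhQ (e ▸ ha)))
    have fb := Finset.mem_union.1 (hall b (fun e => hhQ (e ▸ hb)))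
    have fc := Finset.mem_union.1 (hall c (fun e => hhQ (e ▸ hc)))
    rcases fa with fa | fa <;> rcases fb with fb | fb <;> rcases fc with fc | fc <;>
    first
    | exact Or.inl ((key a b ha hb hab).symm.trans (Fl_eq hab fa fb))
    | exact Or.inr ((key a b ha hb hab).symm.trans (Fl_eq hab fa fb))
    | exact Or.inl ((key a c ha hc hac).symm.trans (Fl_eq hac fa fc))
    | exact Or.inr ((key a c ha hc hac).symm.trans (Fl_eq hac fa fc))
    | exact Or.inl ((key b c hb hc hbc).symm.trans (Fl_eq hbc fb fc))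
    | exact Or.inr ((key b c hb hc hbc).symm.trans (Fl_eq hbc fb fc))
  obtain ⟨k1, k2, hk1, hk2, hBk1, hBk2, hkn⟩ := hk
  have hkn' : k2 ∉ Fl A k k1 := by
    unfold Fl
    rw [Finset.mem_insert]
    tauto
  rcases hbig k1 hBk1 with e1 | e1 <;> rcases hbig k2 hBk2 with e2 | e2
  · exact absurd (by rw [e1, ← e2]; exact right_mem_Fl k k2) hkn'
  · exact hint k (e1 ▸ left_mem_Fl k k1) (e2 ▸ left_mem_Fl k k2)
  · exact hint k (e2 ▸ left_mem_Fl k k2) (e1 ▸ left_mem_Fl k k1)
  · exact absurd (by rw [e1, ← e2]; exact right_mem_Fl k k2) hkn'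

/-- `classes_of_iso` for one hyperplane -/
theorem class_of_good {d' : ℕ} {B : Arrangement d'} (hA : 3 ≤ A.n) (hB : 3 ≤ B.n)
    (φ : A.cellGraph ≃g B.cellGraph) (i : Fin A.n)
    (hbig : ∀ j j' : Fin A.n, j ≠ i → j' ≠ i → A.Big i j → A.Big i j' → j' ∈ A.cls i j) :
    ∃ α : Fin B.n, ∀ P ∈ (A.model hA).T, symmDiff P {i} ∈ (A.model hA).T →
      (B.model hB).Cross (φ ((A.model hA).c P)) (φ ((A.model hA).c (symmDiff P {i}))) α := by
  set m := A.model hA with hm
  set m' := B.model hB with hm'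
  have hcard := card_eq_of_iso m m' φ
  obtain ⟨K, hK, hK'⟩ := m.exists_crossing i
  obtain ⟨α, hα⟩ := m'.exists_cross (φ.map_rel_iff.mpr (m.adj_singleton hK hK'))
  refine ⟨α, ?_⟩
  intro P hP hP'
  refine conn (A := A) (i := i) (by omega)
    (fun P => m'.Cross (φ (m.c P)) (φ (m.c (symmDiff P {i}))) α) ?_ ?_ ?_ hbig
    K P hK hK' hP hP' hα
  · intro P hP hP' h
    have := h.symm
    rwa [symmDiff_singleton_symmDiff]
  · intro P hP hP' h
    rw [m.c_compl hP, compl_symmDiff_left, m.c_compl hP']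
    exact h
  · rintro P Q hP hP' hQ hQ' ⟨j, hji, hj, hnb⟩ h
    refine same_class m m' φ hcard hP hP' hQ hQ' ?_ ?_ h
    · rw [hj, mem_cls]
      tauto
    · rw [hj, Fintype.card_fin]
      unfold Arrangement.Big at hnb
      omega

/-- All walls in one hyperplane are carried to walls in one hyperplane. -/
theorem classes {d' : ℕ} {B : Arrangement d'} (hd : 3 ≤ d) (hn : 5 ≤ A.n) (hA : 3 ≤ A.n)
    (hB : 3 ≤ B.n) (φ : A.cellGraph ≃g B.cellGraph) (i : Fin A.n) :
    ∃ α : Fin B.n, ∀ P ∈ (A.model hA).T, symmDiff P {i} ∈ (A.model hA).T →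
      (B.model hB).Cross (φ ((A.model hA).c P)) (φ ((A.model hA).c (symmDiff P {i}))) α := by
  have hgood : ∀ k : Fin A.n, ¬ Bad A k →
      ∃ α : Fin B.n, ∀ P ∈ (A.model hA).T, symmDiff P {k} ∈ (A.model hA).T →
      (B.model hB).Cross (φ ((A.model hA).c P)) (φ ((A.model hA).c (symmDiff P {k}))) α := by
    intro k hk
    apply class_of_good hA hB φ k
    intro j j' hj hj' h1 h2
    by_contra h3
    exact hk ⟨j, j', hj, hj', h1, h2, h3⟩
  by_cases hi : Bad A i
  · apply last_class
    intro k hk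
    exact hgood k (fun h => hk (bad_unique hd hn hi h))
  · exact hgood i hi

/-- a sign-preserving correspondence gives an isomorphism of the face posets that is compatible
with the correspondence -/
theorem equiv_of_rel' (σ : Fin A.n ≃ Fin B.n) (η : Fin A.n → SignType) (hη : ∀ i, η i * η i = 1)
    (h1 : ∀ x, ∃ v, Rel A B σ η x v) (h2 : ∀ v, ∃ x, Rel A B σ η x v) :
    ∃ ψ : A.Face ≃ B.Face, (∀ F G : A.Face, A.InClosure F G ↔ B.InClosure (ψ F) (ψ G)) ∧
      ∀ (F : A.Face) x v, x ≠ 0 → F.1 = A.face x → Rel A B σ η x v → (ψ F).1 = B.face v := by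
  choose r hr using h1
  let x : A.Face → Fin (d + 1) → ℝ := fun F => F.2.choose
  have hx0 : ∀ F : A.Face, x F ≠ 0 := fun F => F.2.choose_spec.1
  have hxF : ∀ F : A.Face, F.1 = A.face (x F) := fun F => F.2.choose_spec.2
  let φ : A.Face → B.Face := fun F =>
    ⟨B.face (r (x F)), r (x F), ((hr (x F)).ne_zero_iff hη).1 (hx0 F), rfl⟩
  have hφ : ∀ F : A.Face, (φ F).1 = B.face (r (x F)) := fun F => rfl
  have hinj : Function.Injective φ := by
    intro F G hFG
    have h3 : B.face (r (x F)) = B.face (r (x G)) := congrArg Subtype.val hFG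
    rw [← (hr (x F)).face_eq hη (hr (x G)) (hx0 F)] at h3
    apply Subtype.ext
    rw [hxF F, hxF G, h3]
  have hsurj : Function.Surjective φ := by
    rintro ⟨G, v, hv, rfl⟩
    obtain ⟨y, hy⟩ := h2 v
    have hy0 : y ≠ 0 := (hy.ne_zero_iff hη).2 hv
    let Fy : A.Face := ⟨A.face y, y, hy0, rfl⟩
    refine ⟨Fy, ?_⟩
    apply Subtype.ext
    have h3 : A.face y = A.face (x Fy) := hxF Fy
    have h4 : B.face (r (x Fy)) = B.face v := ((hy.face_eq hη (hr _) hy0).1 h3).symm
    exact h4
  refine ⟨Equiv.ofBijective φ ⟨hinj, hsurj⟩, ?_, ?_⟩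
  · intro F G
    have e1 : A.InClosure F G ↔ A.face (x F) ⊆ closure (A.face (x G)) := by
      rw [← hxF F, ← hxF G]; exact Iff.rfl
    have e2 : B.InClosure ((Equiv.ofBijective φ ⟨hinj, hsurj⟩) F)
        ((Equiv.ofBijective φ ⟨hinj, hsurj⟩) G) ↔
        B.face (r (x F)) ⊆ closure (B.face (r (x G))) := Iff.rfl
    rw [e1, e2, A.face_subset_closure_iff (hx0 F) (hx0 G),
      B.face_subset_closure_iff (((hr (x F)).ne_zero_iff hη).1 (hx0 F))
        (((hr (x G)).ne_zero_iff hη).1 (hx0 G)),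
      (hr (x F)).sle_iff hη (hr (x G)), ← A.signs_neg, ← B.signs_neg,
      (hr (x F)).sle_iff hη (hr (x G)).neg]
  · intro F y v hy hF hrel
    have h3 : A.face y = A.face (x F) := by rw [← hF, ← hxF F]
    exact ((hrel.face_eq hη (hr _) hy).1 h3).symm

theorem equiv_of_generic' (σ : Fin A.n ≃ Fin B.n) (η : Fin A.n → SignType)
    (hη : ∀ i, η i * η i = 1)
    (h1 : ∀ x, A.Gen x → ∃ v, B.Gen v ∧ Rel A B σ η x v)
    (h2 : ∀ v, B.Gen v → ∃ x, A.Gen x ∧ Rel A B σ η x v) :
    ∃ ψ : A.Face ≃ B.Face, (∀ F G : A.Face, A.InClosure F G ↔ B.InClosure (ψ F) (ψ G)) ∧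
      ∀ (F : A.Face) x v, x ≠ 0 → F.1 = A.face x → Rel A B σ η x v → (ψ F).1 = B.face v := by
  apply equiv_of_rel' σ η hη (extend_rel σ η hη h1 h2)
  have hη' : ∀ k, η (σ.symm k) * η (σ.symm k) = 1 := fun k => hη _
  have hback : ∀ x v, Rel B A σ.symm (fun k => η (σ.symm k)) v x → Rel A B σ η x v := by
    intro x v h
    have := h.symm hη'
    intro i
    have h3 := this i
    simpa using h3
  intro v
  obtain ⟨x, hx⟩ := extend_rel (A := B) (B := A) σ.symm (fun k => η (σ.symm k)) hη'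
    (fun v hv => by
      obtain ⟨x, hx, hr⟩ := h2 v hv
      exact ⟨x, hx, hr.symm hη⟩)
    (fun x hx => by
      obtain ⟨v, hv, hr⟩ := h1 x hx
      exact ⟨v, hv, hr.symm hη⟩) v
  exact ⟨x, hback x v hx⟩

theorem equiv_of_topes' (σ : Fin A.n ≃ Fin B.n) (E : Finset (Fin B.n))
    (h : ∀ N : Finset (Fin A.n), N ∈ A.T ↔ symmDiff (N.map σ.toEmbedding) E ∈ B.T) :
    ∃ ψ : A.Face ≃ B.Face, (∀ F G : A.Face, A.InClosure F G ↔ B.InClosure (ψ F) (ψ G)) ∧
      ∀ (F : A.Face) x v, A.Gen x → B.Gen v → F.1 = A.face x →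
        B.neg v = symmDiff ((A.neg x).map σ.toEmbedding) E → (ψ F).1 = B.face v := by
  classical
  have key : ∀ x v, A.Gen x → B.Gen v →
      B.neg v = symmDiff ((A.neg x).map σ.toEmbedding) E →
      Rel A B σ (fun i => if σ i ∈ E then -1 else 1) x v := by
    intro x v hx hv he i
    have h1 : σ i ∈ B.neg v ↔ σ i ∈ symmDiff ((A.neg x).map σ.toEmbedding) E := by rw [he]
    rw [Finset.mem_symmDiff, Finset.mem_map_equiv, Equiv.symm_apply_apply, Arrangement.mem_neg,
      Arrangement.mem_neg] at h1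
    rw [signs_apply, signs_apply]
    have h2 := hx i
    have h3 := hv (σ i)
    by_cases hE : σ i ∈ E
    · simp only [hE, if_true]
      rcases lt_or_gt_of_ne h2 with h4 | h4
      · rw [sign_neg h4]
        rcases lt_or_gt_of_ne h3 with h5 | h5
        · have := h1.1 h5
          tauto
        · rw [sign_pos h5]; rfl
      · rw [sign_pos h4]
        rcases lt_or_gt_of_ne h3 with h5 | h5
        · rw [sign_neg h5]; rfl
        · have h6 : ¬ (A.f i x < 0) := by linarith
          have h7 : ¬ (B.f (σ i) v < 0) := by linarith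
          tauto
    · simp only [hE, if_false]
      rcases lt_or_gt_of_ne h2 with h4 | h4
      · rw [sign_neg h4]
        rcases lt_or_gt_of_ne h3 with h5 | h5
        · rw [sign_neg h5]; rfl
        · have h7 : ¬ (B.f (σ i) v < 0) := by linarith
          tauto
      · rw [sign_pos h4]
        rcases lt_or_gt_of_ne h3 with h5 | h5
        · have h6 : ¬ (A.f i x < 0) := by linarith
          tauto
        · rw [sign_pos h5]; rfl
  obtain ⟨ψ, hψ1, hψ2⟩ := equiv_of_generic' (A := A) (B := B) σ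
    (fun i => if σ i ∈ E then -1 else 1)
    (by
      intro i
      by_cases hE : σ i ∈ E
      · simp only [hE, if_true]; rfl
      · simp only [hE, if_false]; rfl)
    (by
      intro x hx
      obtain ⟨v, hv, hve⟩ := (h (A.neg x)).1 ⟨x, hx, rfl⟩
      exact ⟨v, hv, key x v hx hv hve⟩)
    (by
      intro v hv
      have h1 : ((symmDiff (B.neg v) E).map σ.symm.toEmbedding) ∈ A.T := by
        rw [h]
        refine ⟨v, hv, ?_⟩
        rw [Finset.map_map]
        have : σ.symm.toEmbedding.trans σ.toEmbedding = Function.Embedding.refl _ := by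
          ext b; simp
        rw [this, Finset.map_refl, symmDiff_assoc, symmDiff_self, symmDiff_bot]
      obtain ⟨x, hx, hxe⟩ := h1
      refine ⟨x, hx, key x v hx hv ?_⟩
      rw [hxe, Finset.map_map]
      have : σ.symm.toEmbedding.trans σ.toEmbedding = Function.Embedding.refl _ := by
        ext b; simp
      rw [this, Finset.map_refl, symmDiff_assoc, symmDiff_self, symmDiff_bot])
  exact ⟨ψ, hψ1, fun F x v hx hv hF hv2 => hψ2 F x v hx.ne_zero hF (key x v hx hv hv2)⟩

/-- the cell of the model -/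
theorem model_c (hA : 3 ≤ A.n) {x : Fin (d + 1) → ℝ} (hx : A.Gen x) :
    (A.model hA).c (A.neg x) = cellOf x hx := by
  have hex : ∃ y, A.Gen y ∧ A.neg y = A.neg x := ⟨x, hx, rfl⟩
  simp only [Arrangement.model, dif_pos hex]
  rw [cellOf_eq_iff]
  left
  exact hex.choose_spec.2

/-- Every isomorphism of the cell graphs extends to an isomorphism of the face posets. -/
theorem extension (hd : 3 ≤ d) (hn : 5 ≤ A.n) (φ : A.cellGraph ≃g B.cellGraph) :
    ∃ ψ : A.Face ≃ B.Face, (∀ F G : A.Face, A.InClosure F G ↔ B.InClosure (ψ F) (ψ G)) ∧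
      ∀ C : A.Cell, ψ C.1 = (φ C).1 := by
  have hA : 3 ≤ A.n := by omega
  have hB : 3 ≤ B.n := by have := B.le_n; omega
  obtain ⟨σ, E, h, h'⟩ := tope_equiv' (A.model hA) (B.model hB) φ (classes hd hn hA hB φ)
  obtain ⟨ψ, hψ1, hψ2⟩ := equiv_of_topes' (A := A) (B := B) σ E h
  refine ⟨ψ, hψ1, fun C => ?_⟩
  obtain ⟨x, hx, rfl⟩ := exists_cellOf C
  obtain ⟨v, hv, hve⟩ := (h (A.neg x)).1 ⟨x, hx, rfl⟩
  have h1 := h' (A.neg x) ⟨x, hx, rfl⟩
  rw [model_c hA hx, ← hve, model_c hB hv] at h1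
  rw [← h1]
  apply Subtype.ext
  exact hψ2 _ x v hx hv rfl hve

end Pool.Agent.H81.CG
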