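import Pool.Agent.H81.CG.Geo

/-!
# An isomorphism of the face posets is determined by its values on the cells
-/

set_option autoImplicit false

namespace Pool.Agent.H81.CG

open Filter Topology
open Pool.Agent.Results.MP_d06cab_co.CellGraph
open Pool.Agent.Results.MP_d06cab_co.CellGraph.Arrangement

variable {d : ℕ} {A B : Arrangement d}

/-- the face of `x` lies in the closure of the face of `t` -/
def Ab (A : Arrangement d) (x t : Fin (d + 1) → ℝ) : Prop :=
  sle (A.signs x) (A.signs t) ∨ sle (A.signs x) (-A.signs t)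

theorem sgn_aux1 {a : SignType} (h : a = -a) : a = 0 := by revert a; decide

theorem sign_ne {r : ℝ} (h : r ≠ 0) : SignType.sign r ≠ 0 := fun h' => h (sign_eq_zero_iff.1 h')

/-- small perturbations of a point -/
theorem perturb (x v : Fin (d + 1) → ℝ) :
    ∃ t, A.Gen t ∧ (∀ i, A.f i x ≠ 0 → SignType.sign (A.f i t) = SignType.sign (A.f i x)) ∧
      ∀ i, A.f i x = 0 → A.f i v ≠ 0 → SignType.sign (A.f i t) = SignType.sign (A.f i v) := by
  obtain ⟨v', hv1, hv2⟩ := exists_perturb A.f A.f A.f_ne_zero v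
  have hev : ∀ᶠ ε in 𝓝[>] (0 : ℝ), ∀ j, SignType.sign (A.f j (x + ε • v')) =
      if A.f j x = 0 then SignType.sign (A.f j v') else SignType.sign (A.f j x) := by
    rw [eventually_all]
    exact fun j => ev_sign (A.f j) x v'
  obtain ⟨ε, hε⟩ := hev.exists
  refine ⟨x + ε • v', ?_, ?_, ?_⟩
  · intro j h0
    have h1 := hε j
    rw [h0, sign_zero] at h1
    by_cases hj : A.f j x = 0
    · rw [if_pos hj, eq_comm, sign_eq_zero_iff] at h1
      exact hv2 j h1
    · rw [if_neg hj, eq_comm, sign_eq_zero_iff] at h1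
      exact hj h1
  · intro j hj
    rw [hε j, if_neg hj]
  · intro j hj hvj
    rw [hε j, if_pos hj]
    exact hv1 j hvj

/-- two different hyperplanes: independent values -/
theorem exists_vals {i j : Fin A.n} (hij : i ≠ j) (a b : ℝ) :
    ∃ v, A.f i v = a ∧ A.f j v = b := by
  have h1 : ∀ i j : Fin A.n, i ≠ j → ∃ u, A.f i u = 0 ∧ A.f j u ≠ 0 := by
    intro i j hij
    by_contra hcon
    push Not at hcon
    obtain ⟨c, hc⟩ := exists_smul_of_ker_le (φ := A.f j) (ψ := A.f i) (fun u hu => hcon u hu)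
    exact hij (A.f_parallel hc).symm
  obtain ⟨u, hu1, hu2⟩ := h1 i j hij
  obtain ⟨w, hw1, hw2⟩ := h1 j i hij.symm
  refine ⟨(a / A.f i w) • w + (b / A.f j u) • u, ?_, ?_⟩
  · rw [map_add, map_smul, map_smul, hu1, smul_eq_mul, smul_eq_mul, mul_zero, add_zero,
      div_mul_cancel₀ _ hw2]
  · rw [map_add, map_smul, map_smul, hw1, smul_eq_mul, smul_eq_mul, mul_zero, zero_add,
      div_mul_cancel₀ _ hu2]

/-- at least two hyperplanes do not contain the point -/
def Two (A : Arrangement d) (x : Fin (d + 1) → ℝ) : Prop :=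
  ∃ i j, i ≠ j ∧ A.f i x ≠ 0 ∧ A.f j x ≠ 0

theorem Two.other {x : Fin (d + 1) → ℝ} (h : Two A x) (i : Fin A.n) : ∃ j, j ≠ i ∧ A.f j x ≠ 0 := by
  obtain ⟨a, b, hab, ha, hb⟩ := h
  by_cases hai : a = i
  · exact ⟨b, fun h => hab (hai.trans h.symm), hb⟩
  · exact ⟨a, hai, ha⟩

theorem one_or_two {x : Fin (d + 1) → ℝ} (hx : x ≠ 0) :
    Two A x ∨ ∃ i, A.f i x ≠ 0 ∧ ∀ j, j ≠ i → A.f j x = 0 := by
  by_cases h : Two A x
  · exact Or.inl h
  · right
    obtain ⟨i, hi⟩ : ∃ i, A.f i x ≠ 0 := by
      by_contra hcon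
      push Not at hcon
      exact hx (A.essential hcon)
    refine ⟨i, hi, fun j hj => ?_⟩
    by_contra h2
    exact h ⟨i, j, hj.symm, hi, h2⟩

theorem not_Ab_of_opposite {y t : Fin (d + 1) → ℝ} {i j : Fin A.n} (hi : A.f i y ≠ 0)
    (hj : A.f j y ≠ 0) (h1 : SignType.sign (A.f i t) = SignType.sign (A.f i y))
    (h2 : SignType.sign (A.f j t) = -SignType.sign (A.f j y)) : ¬ Ab A y t := by
  rintro (h | h)
  · have := h j (sign_ne hj)
    rw [signs_apply, signs_apply, h2] at this
    exact sign_ne hj (sgn_aux1 this)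
  · have := h i (sign_ne hi)
    rw [Pi.neg_apply, signs_apply, signs_apply, h1] at this
    exact sign_ne hi (sgn_aux1 this)

theorem zero_of_zero {x y : Fin (d + 1) → ℝ} (hy : Two A y)
    (hsub : ∀ t, A.Gen t → Ab A x t → Ab A y t) {i : Fin A.n} (hi : A.f i x = 0) :
    A.f i y = 0 := by
  by_contra hiy
  obtain ⟨j, hji, hj⟩ := hy.other i
  have hAb : ∀ t, (∀ k, A.f k x ≠ 0 → SignType.sign (A.f k t) = SignType.sign (A.f k x)) →
      Ab A x t := by
    intro t ht
    left
    intro k hk
    have hk' : A.f k x ≠ 0 := fun h => hk (by rw [signs_apply, h, sign_zero])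
    rw [signs_apply, signs_apply, ht k hk']
  by_cases hjx : A.f j x = 0
  · obtain ⟨v, hv1, hv2⟩ := exists_vals (A := A) hji.symm (A.f i y) (-A.f j y)
    obtain ⟨t, ht, ht1, ht2⟩ := perturb (A := A) x v
    have e1 := ht2 i hi (by rw [hv1]; exact hiy)
    have e2 := ht2 j hjx (by rw [hv2]; exact neg_ne_zero.2 hj)
    rw [hv1] at e1
    rw [hv2, Left.sign_neg] at e2
    exact not_Ab_of_opposite hiy hj e1 e2 (hsub t ht (hAb t ht1))
  · obtain ⟨v, hv1, -⟩ := exists_vals (A := A) hji.symm (A.f i y) 0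
    obtain ⟨t, ht, ht1, ht2⟩ := perturb (A := A) x v
    obtain ⟨t', ht', ht1', ht2'⟩ := perturb (A := A) x (-v)
    have e1 := ht2 i hi (by rw [hv1]; exact hiy)
    have e2 := ht2' i hi (by rw [map_neg, hv1]; exact neg_ne_zero.2 hiy)
    rw [hv1] at e1
    rw [map_neg, hv1, Left.sign_neg] at e2
    have e3 := ht1 j hjx
    have e4 := ht1' j hjx
    -- the sign of `y` at `j` agrees with that of `x` (from `t`)
    have f1 : SignType.sign (A.f j y) = SignType.sign (A.f j x) := by
      rcases hsub t ht (hAb t ht1) with h | h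
      · have := h j (sign_ne hj)
        rw [signs_apply, signs_apply, e3] at this
        exact this
      · have := h i (sign_ne hiy)
        rw [Pi.neg_apply, signs_apply, signs_apply, e1] at this
        exact absurd (sgn_aux1 this) (sign_ne hiy)
    rcases hsub t' ht' (hAb t' ht1') with h | h
    · have := h i (sign_ne hiy)
      rw [signs_apply, signs_apply, e2] at this
      exact sign_ne hiy (sgn_aux1 this)
    · have := h j (sign_ne hj)
      rw [Pi.neg_apply, signs_apply, signs_apply, e4, f1] at this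
      exact sign_ne hjx (sgn_aux1 this)

/-- A face in at most all but two hyperplanes is determined by the cells around it. -/
theorem face_eq_of_two {x y : Fin (d + 1) → ℝ} (hx0 : x ≠ 0) (hx : Two A x) (hy : Two A y)
    (h : ∀ t, A.Gen t → (Ab A x t ↔ Ab A y t)) : A.face x = A.face y := by
  have z1 : ∀ i, A.f i x = 0 → A.f i y = 0 := fun i hi =>
    zero_of_zero hy (fun t ht h' => (h t ht).1 h') hi
  have z2 : ∀ i, A.f i y = 0 → A.f i x = 0 := fun i hi =>
    zero_of_zero hx (fun t ht h' => (h t ht).2 h') hi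
  rw [A.face_eq_iff hx0]
  obtain ⟨t, ht, ht1, -⟩ := perturb (A := A) x 0
  have hAb : Ab A x t := by
    left
    intro k hk
    have hk' : A.f k x ≠ 0 := fun h => hk (by rw [signs_apply, h, sign_zero])
    rw [signs_apply, signs_apply, ht1 k hk']
  rcases (h t ht).1 hAb with h1 | h1
  · left
    ext i
    by_cases hi : A.f i x = 0
    · rw [signs_apply, signs_apply, hi, z1 i hi]
    · have h2 := h1 i (sign_ne (fun h => hi (z2 i h)))
      rw [signs_apply, signs_apply, ht1 i hi] at h2
      rw [signs_apply, signs_apply, h2]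
  · right
    ext i
    by_cases hi : A.f i x = 0
    · rw [Pi.neg_apply, signs_apply, signs_apply, hi, z1 i hi, sign_zero]
      decide
    · have h2 := h1 i (sign_ne (fun h => hi (z2 i h)))
      rw [Pi.neg_apply, signs_apply, signs_apply, ht1 i hi] at h2
      rw [Pi.neg_apply, signs_apply, signs_apply, h2, neg_neg]

theorem Ab_of_one {y t : Fin (d + 1) → ℝ} {i : Fin A.n} (hi : A.f i y ≠ 0)
    (hy : ∀ j, j ≠ i → A.f j y = 0) (ht : A.f i t ≠ 0) : Ab A y t := by
  have key : ∀ a b : SignType, a ≠ 0 → b ≠ 0 → a = b ∨ a = -b := by decide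
  rcases key _ _ (sign_ne hi) (sign_ne ht) with h | h
  · left
    intro k hk
    by_cases hki : k = i
    · rw [hki]; exact h
    · exact absurd (by rw [signs_apply, hy k hki, sign_zero]) hk
  · right
    intro k hk
    by_cases hki : k = i
    · rw [hki]; exact h
    · exact absurd (by rw [signs_apply, hy k hki, sign_zero]) hk

theorem exists_not_Ab {y : Fin (d + 1) → ℝ} (hy : Two A y) : ∃ t, A.Gen t ∧ ¬ Ab A y t := by
  obtain ⟨i, j, hij, hi, hj⟩ := hy
  obtain ⟨v, hv1, hv2⟩ := exists_vals (A := A) hij (A.f i y) (-A.f j y)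
  obtain ⟨t, ht1, ht2⟩ := exists_perturb A.f A.f A.f_ne_zero v
  refine ⟨t, ht2, not_Ab_of_opposite hi hj ?_ ?_⟩
  · rw [ht1 i (by rw [hv1]; exact hi), hv1]
  · rw [ht1 j (by rw [hv2]; exact neg_ne_zero.2 hj), hv2, Left.sign_neg]

/-- An automorphism of the face poset that fixes all cells is the identity. -/
theorem eq_of_cells (hn : 3 ≤ A.n) (χ : A.Face ≃ A.Face)
    (hχ : ∀ F G : A.Face, A.InClosure F G ↔ A.InClosure (χ F) (χ G))
    (hc : ∀ C : A.Cell, χ C.1 = C.1) (F : A.Face) : χ F = F := by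
  have hInc : ∀ (F G : A.Face) x y, x ≠ 0 → y ≠ 0 → F.1 = A.face x → G.1 = A.face y →
      (A.InClosure F G ↔ Ab A x y) := by
    intro F G x y hx hy hF hG
    unfold InClosure Ab
    rw [hF, hG, A.face_subset_closure_iff hx hy]
  have hAb : ∀ (F : A.Face) x y, x ≠ 0 → y ≠ 0 → F.1 = A.face x → (χ F).1 = A.face y →
      ∀ t, A.Gen t → (Ab A x t ↔ Ab A y t) := by
    intro F x y hx hy hF hG t ht
    rw [← hInc F (cellOf t ht).1 x t hx ht.ne_zero hF rfl, hχ, hc,
      hInc (χ F) (cellOf t ht).1 y t hy ht.ne_zero hG rfl]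
  have htwo : ∀ (F : A.Face) x, x ≠ 0 → F.1 = A.face x → Two A x → χ F = F := by
    intro F x hx hF h2
    obtain ⟨y, hy, hG⟩ := (χ F).2
    have hab := hAb F x y hx hy hF hG
    rcases one_or_two (A := A) hy with hy2 | ⟨i, hi, hy1⟩
    · apply Subtype.ext
      rw [hG, hF, face_eq_of_two hx h2 hy2 hab]
    · obtain ⟨t, ht, hnt⟩ := exists_not_Ab h2
      exact absurd ((hab t ht).2 (Ab_of_one hi hy1 (ht i))) hnt
  obtain ⟨x, hx, hF⟩ := F.2
  rcases one_or_two (A := A) hx with hx2 | ⟨i, hi, hx1⟩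
  · exact htwo F x hx hF hx2
  · obtain ⟨y, hy, hG⟩ := (χ F).2
    have hab := hAb F x y hx hy hF hG
    rcases one_or_two (A := A) hy with hy2 | ⟨k, hk, hy1⟩
    · obtain ⟨t, ht, hnt⟩ := exists_not_Ab hy2
      exact absurd ((hab t ht).1 (Ab_of_one hi hx1 (ht i))) hnt
    · have hik : i = k := by
        by_contra hne
        obtain ⟨K, hK, hK'⟩ := (A.model hn).exists_crossing i
        obtain ⟨z, hz, -⟩ := exists_WGen (A := A) (by omega) hK hK'
        obtain ⟨l, hl⟩ : ∃ l : Fin A.n, l ≠ i ∧ l ≠ k := by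
          by_contra hcon
          push Not at hcon
          have h1 : (Finset.univ : Finset (Fin A.n)) ⊆ {i, k} := by
            intro l _
            rw [Finset.mem_insert, Finset.mem_singleton]
            by_cases hl : l = i
            · exact Or.inl hl
            · exact Or.inr (hcon l hl)
          have h2 := (Finset.card_le_card h1).trans (Finset.card_le_two)
          rw [Finset.card_univ, Fintype.card_fin] at h2
          omega
        have hz0 : z ≠ 0 := by
          rintro rfl
          exact hz.2 l hl.1 (map_zero _)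
        let Z : A.Face := ⟨A.face z, z, hz0, rfl⟩
        have hZ : χ Z = Z := htwo Z z hz0 rfl
          ⟨k, l, hl.2.symm, hz.2 k (fun h => hne h.symm), hz.2 l hl.1⟩
        have h1 := hχ F Z
        rw [hZ, hInc F Z x z hx hz0 hF rfl, hInc (χ F) Z y z hy hz0 hG rfl] at h1
        rcases h1.2 (Ab_of_one hk hy1 (hz.2 k (fun h => hne h.symm))) with h2 | h2
        · have := h2 i (sign_ne hi)
          rw [signs_apply, signs_apply, hz.1, sign_zero] at this
          exact sign_ne hi this
        · have := h2 i (sign_ne hi)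
          rw [Pi.neg_apply, signs_apply, signs_apply, hz.1, sign_zero] at this
          exact sign_ne hi (this.trans (by decide))
      subst hik
      apply Subtype.ext
      rw [hG, hF, eq_comm, A.face_eq_iff hx]
      have key : ∀ a b : SignType, a ≠ 0 → b ≠ 0 → a = b ∨ a = -b := by decide
      rcases key _ _ (sign_ne hi) (sign_ne hk) with h | h
      · left
        ext l
        by_cases hl : l = i
        · rw [hl]; exact h
        · rw [signs_apply, signs_apply, hx1 l hl, hy1 l hl]
      · right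
        ext l
        by_cases hl : l = i
        · rw [hl]; exact h
        · rw [Pi.neg_apply, signs_apply, signs_apply, hx1 l hl, hy1 l hl, sign_zero]
          decide

/-- Every isomorphism of the cell graphs extends to exactly one isomorphism of the face posets. -/
theorem extension_unique (hd : 3 ≤ d) (hn : 5 ≤ A.n) (φ : A.cellGraph ≃g B.cellGraph) :
    ∃! ψ : A.Face ≃ B.Face, (∀ F G : A.Face, A.InClosure F G ↔ B.InClosure (ψ F) (ψ G)) ∧
      ∀ C : A.Cell, ψ C.1 = (φ C).1 := by
  obtain ⟨ψ, h1, h2⟩ := extension hd hn φ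
  refine ⟨ψ, ⟨h1, h2⟩, ?_⟩
  rintro ψ' ⟨h1', h2'⟩
  ext1 F
  have h3 := eq_of_cells (by omega) (ψ'.trans ψ.symm) (by
    intro F G
    rw [h1' F G, Equiv.trans_apply, Equiv.trans_apply, h1, Equiv.apply_symm_apply,
      Equiv.apply_symm_apply]) (by
    intro C
    rw [Equiv.trans_apply, h2' C, ← h2 C, Equiv.symm_apply_apply]) F
  rw [Equiv.trans_apply, Equiv.symm_apply_eq] at h3
  exact h3

end Pool.Agent.H81.CG
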